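import Pool.Agent.Helper17.LD.Join
import Pool.Agent.Helper13HD.Main

/-!
# Homologically trivial cycles and coverings by nearly Fermat hypersurfaces

The geometry (`coverIso`, `exists_coord`, `hEquiv`, `add2Equiv`) is from `Helper17.LD`; here it is used
with cycle classes.
-/

set_option autoImplicit false

namespace Pool.Agent.Helper13NF

open Pool.Agent.Helper13HC Pool.Agent.Helper13HD Pool.Agent.Helper17.LD

variable {k : Type} [Field k] {T : CycleData k}

section cover

open MvPolynomial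

variable {N : ℕ}

/-- adjoining an `m`-th root of a coordinate -/
lemma cover_inj (hT : IsAffineCycle T) {m : ℕ} (hm : 0 < m) (j : Fin N)
    {G : MvPolynomial (Fin N) k} (hG : eval 0 G = 0) (r : ℤ)
    (h : Inj T (MvPolynomial (Fin N) k ⧸ Ideal.span {aeval (p1 m j) G}) r) :
    Inj T (MvPolynomial (Fin N) k ⧸ Ideal.span {G}) r := by
  have hn : Nontrivial (MvPolynomial (Fin N) k ⧸ Ideal.span {G}) := by
    rw [Ideal.Quotient.nontrivial_iff, Ne, Ideal.eq_top_iff_one, Ideal.mem_span_singleton]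
    rintro ⟨c, hc⟩
    have := congrArg (eval (0 : Fin N → k)) hc
    rw [map_one, map_mul, hG, zero_mul] at this
    exact one_ne_zero this
  obtain ⟨φ, hφ, hφ'⟩ := hT.cover (MvPolynomial (Fin N) k ⧸ Ideal.span {G})
    (Polynomial.X ^ m - Polynomial.C (Ideal.Quotient.mk (Ideal.span {G}) (X j)))
    (Polynomial.monic_X_pow_sub_C _ hm.ne') (by rw [Polynomial.natDegree_X_pow_sub_C]; exact hm) r
  exact (hT.iso_inj (coverIso m j G) h).of_compatible hφ hφ'

lemma cover_all_inj (hT : IsAffineCycle T) {m d : ℕ} (hm : 0 < m) (hd : 0 < d)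
    {F : MvPolynomial (Fin N) k} (hF : F.IsHomogeneous d) (r : ℤ)
    (h : Inj T (MvPolynomial (Fin N) k ⧸ Ideal.span {powForm m F}) r) :
    Inj T (MvPolynomial (Fin N) k ⧸ Ideal.span {F}) r := by
  have h0 : ∀ j, eval 0 (ppow m j F) = 0 := by
    intro j
    rw [ppow, eval_aeval]
    have : (fun a : Fin N => eval (0 : Fin N → k)
        (if a.val < j then (X a : MvPolynomial (Fin N) k) ^ m else X a)) = 0 := by
      funext a
      split_ifs <;> simp [hm.ne']
    rw [this]
    exact eval_zero_hom hd hF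
  have h1 : ∀ j, j ≤ N →
      Inj T (MvPolynomial (Fin N) k ⧸ Ideal.span {ppow m (N - j) F}) r := by
    intro j
    induction j with
    | zero =>
      intro _
      rw [Nat.sub_zero, ppow_last]
      exact h
    | succ j ih =>
      intro hj
      have h2 := ih (by omega)
      have h3 : N - j = (⟨N - (j + 1), by omega⟩ : Fin N).val + 1 := by
        change N - j = N - (j + 1) + 1
        omega
      rw [h3, ppow_succ] at h2
      exact cover_inj hT hm _ (h0 _) r h2
  have h4 := h1 N le_rfl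
  rwa [Nat.sub_self, ppow_zero] at h4

/-- **The covering of a hypersurface of degree `d` by one of degree `d m`.** -/
theorem hom_of_power [IsAlgClosed k] [CharZero k] (hT : IsCycle T) {n d i : ℕ} (hd : 2 ≤ d)
    {F : MvPolynomial (Fin (n + 2)) k} (hF : IsSmoothForm F d) (hi : 1 ≤ i) (hin : i ≤ n)
    (h : ∀ G : MvPolynomial (Fin (n + 2)) k, IsNondegenerate G d →
      ∃ m, 0 < m ∧ HomInjective T (powForm m G) i) : HomInjective T F i := by
  obtain ⟨j, rfl⟩ : ∃ j, i = j + 1 := ⟨i - 1, by omega⟩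
  have hP : PJ F 0 := by
    intro y hy
    by_contra h1
    push Not at h1
    exact hy (hF.2 y fun a => h1 a (fun h => absurd h (Nat.not_lt_zero _)))
  obtain ⟨φ, h1, h2⟩ := exists_coord hd hF.1 hP (n + 2) le_rfl
  have h3 : IsNondegenerate (φ F) d := by
    refine ⟨h1, fun z hz => ?_⟩
    obtain ⟨a, ha, ha'⟩ := h2 z hz
    exact ⟨a, ha a.2, ha'⟩
  obtain ⟨m, hm, h4⟩ := h (φ F) h3
  rw [hT.hom_iff (Nat.mul_pos hm (by omega)) (powForm_smooth hm h3) hin] at h4
  rw [hT.hom_iff (by omega) hF hin]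
  have h5 := cover_all_inj hT.toIsAffineCycle hm (by omega) h1 _ h4
  refine hT.iso_inj (Ideal.quotientEquivAlg (Ideal.span {F}) (Ideal.span {φ F}) φ ?_) h5
  rw [Ideal.map_span, Set.image_singleton]
  rfl

end cover

section fermat

open Polynomial

/-- The main step. -/
theorem key_fermat [CharZero k] (hT : IsAffineCycle T) {N : ℕ} (f : MvPolynomial (Fin N) k)
    {D : ℕ} (hD : 2 ≤ D) {ω : k} (hω : ω ≠ 0) (r : ℤ) (hr : r + 1 ≠ N)
    (h : Inj T (HR f (hf k (MvPolynomial (Fin N) k) ω D)) (r + 1)) :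
    Inj T (MvPolynomial (Fin N) k ⧸ Ideal.span {f}) r := by
  have hfin : Algebra.FiniteType k (KR f) :=
    inferInstanceAs (Algebra.FiniteType k (_ ⧸ Ideal.span {keq f}))
  have hD0 : (D : k) ≠ 0 := Nat.cast_ne_zero.2 (by omega)
  -- the covering
  have hn : Nontrivial (KR f) :=
    (klift k (AlgHom.id k _) 1 f (one_mul f).symm : KR f →ₐ[k] _).toRingHom.domain_nontrivial
  have h1 : Inj T (KR f) (r + 1) := by
    obtain ⟨hm, hdeg⟩ := hpol_spec (k := k) f hD hω hD0
    obtain ⟨φ, hφ, hφ'⟩ := hT.cover (KR f) _ hm (by rw [hdeg]; omega) (r + 1)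
    exact (hT.iso_inj (hEquiv (k := k) (f := f)
      (inv_ne_zero (mul_ne_zero hD0 (pow_ne_zero (D - 1) hω))) _) h).of_compatible hφ hφ'
  -- the localisation sequence
  have h3 : Subsingleton (T.CH (Localization.Away (ku f)) (r + 1) 1) :=
    hT.iso_sub (locEquiv k f) (hT.torus N (r + 1) hr)
  obtain ⟨α, β, γ, -, h4, h4'⟩ := hT.localization (KR f) (ku f) (r + 1)
  have hγ : Function.Injective γ := by
    rw [← LinearMap.ker_eq_bot, LinearMap.ker_eq_bot']
    intro x hx
    obtain ⟨y, rfl⟩ := (h4 x).1 hx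
    rw [Subsingleton.elim y 0, map_zero]
  have h5 : Inj T (KR f ⧸ Ideal.span {ku f}) (r + 1) := h1.of_compatible hγ h4'
  have h6 : Inj T (MvPolynomial (Fin N) k ⧸ Ideal.span {f})[X] (r + 1) :=
    hT.iso_inj (closedEquiv k f).symm h5
  obtain ⟨φ, hφ, hφ'⟩ := (hT.homotopy (MvPolynomial (Fin N) k ⧸ Ideal.span {f}) r).2
  exact h6.of_compatible hφ hφ'

/-- The step: the dimension `n + 2` and the codimension `i + 1`. -/
theorem fermat_step [IsAlgClosed k] [CharZero k] (hT : IsCycle T) {n D : ℕ}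
    {F : MvPolynomial (Fin (n + 2)) k} (hD : 2 ≤ D) (hF : IsSmoothForm F D) {i : ℕ} (h1 : 1 ≤ i)
    (h2 : i ≤ n) (h : HomInjective T (n := n + 2) (add2 F D) (i + 1)) :
    HomInjective T F i := by
  obtain ⟨j, rfl⟩ : ∃ j, i = j + 1 := ⟨i - 1, by omega⟩
  obtain ⟨ω, hω⟩ := IsAlgClosed.exists_pow_nat_eq (-1 : k) (n := D) (by omega)
  have hω0 : ω ≠ 0 := by
    rintro rfl
    rw [zero_pow (by omega)] at hω
    exact one_ne_zero (α := k) (by rw [← neg_eq_zero, ← hω])
  rw [hT.hom_iff (n := n + 2) (by omega) (add2_smooth hD hF) (by omega)] at h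
  rw [hT.hom_iff (by omega) hF h2]
  have e1 : ((n + 2 : ℕ) : ℤ) - (j + 1 : ℕ) = (n : ℤ) - j + 1 := by
    push_cast
    ring
  rw [e1] at h
  exact key_fermat hT.toIsAffineCycle F hD hω0 ((n : ℤ) - j) (by push_cast; omega)
    (hT.iso_inj (add2Equiv F hω).symm h)

lemma join_step [IsAlgClosed k] [CharZero k] (hT : IsCycle T) {n D : ℕ} (hD : 2 ≤ D)
    {G : MvPolynomial (Fin (n + 2)) k} (hG : IsSmoothForm G D) {i : ℕ} (h1 : 1 ≤ i)
    (h2 : i ≤ n) (r : ℕ)
    (h : HomInjective T (n := n + 2 * r) (joinFermat G D r) (i + r)) :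
    HomInjective T G i := by
  induction r with
  | zero => exact h
  | succ r ih =>
    refine ih (fermat_step (n := n + 2 * r) hT hD (join_smooth hD hG r) (by omega) (by omega) ?_)
    exact h

end fermat

end Pool.Agent.Helper13NF
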